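import Mathlib
import Pool.Agent.Run7.h384.WAPE

/-!
# MP_c68506_an, Q1: yes.

Every semitopological semigroup `S` for which `WAP(S)` has a left invariant mean has property (F);
no separability is assumed.  All definitions are in `Pool/Agent/Run7/h384/WAPDefs.lean`.
-/

namespace Pool.Agent.Results.MP_c68506_an.SeparabilityNotNeeded

open Run7.h384.WAP

open scoped BoundedContinuousFunction

/-- Let `S` be a semitopological semigroup for which `WAP(S)` (real or complex valued functions)
has a left invariant mean.  Then every weakly separately continuous, weakly quasi-equicontinuous,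
`Q`-nonexpansive representation of `S` on a nonempty weakly compact convex subset of a Hausdorff
locally convex space `(E, Q)` has a common fixed point. -/
theorem result.{u, v, w} (𝕂 : Type) [RCLike 𝕂] (S : Type u) [Semigroup S] [TopologicalSpace S]
    [SemitopologicalSemigroup S] (hLIM : ∃ m : (S →ᵇ 𝕂) → 𝕂, IsLeftInvariantMean m) :
    PropertyF.{u, v, w} S := by
  obtain ⟨m, hm⟩ := hLIM
  refine ⟨?_⟩
  intro 𝕜 _ E _ _ _ _ _ _ _ _ ι Q hQ C hCne hCc hCconv T hT
  exact exists_fixedPoint hm Q hQ C hCne hCc hCconv T hT

end Pool.Agent.Results.MP_c68506_an.SeparabilityNotNeeded
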